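import Pool.Agent.H89.PL.TRC1

/-!
# Row (TRC): the argument with the traces
-/

set_option autoImplicit false

open Finset Polynomial Pool.Agent.H23.PL

namespace Pool.Agent.H89.PL

/-- the size of the sum -/
theorem trc_S (K n₀ Z : ℕ) (a : ℕ → ℤ√2) (V R x : ℝ) (hV : 0 < V) (hR : 1 ≤ R) (hx0 : 0 < x)
    (hx : x = (al⁻¹) ^ (2 * n₀)) (hRx : R * x ≤ 1 / 4) (h1 : ∀ k, |f1 (a k)| ≤ V * (4 * R) ^ k)
    (hs : HasSum (fun k => f1 (a k) / 4 ^ k * x ^ k) (Z * x ^ K)) :
    |∑ j ∈ range (3 * K + 1), f1 (trcP K a j + trcQ K n₀ Z a j) * x ^ j| ≤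
      2 * (4 ^ (4 * K) * V * R ^ K) * (R * x) ^ (3 * K + 1) := by
  have hR0 : 0 < R := lt_of_lt_of_le one_pos hR
  have hid := trc_ident K n₀ Z a x hx
  have hTb := trc_tail K Z a V R x hV hR hx0 hRx h1 hs
  set S : ℝ := ∑ j ∈ range (3 * K + 1), f1 (trcP K a j + trcQ K n₀ Z a j) * x ^ j
  set T : ℝ := ∑ k ∈ range (K + (3 * K + 1)), f1 (a k) / 4 ^ k * x ^ k
  have h4 : x ^ K * |S| ≤
      x ^ K * (2 * (4 ^ (4 * K) * V * R ^ K) * (R * x) ^ (3 * K + 1)) := by
    have e : x ^ K * |S| = |x ^ K * S| := by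
      rw [abs_mul, abs_of_pos (by positivity : 0 < x ^ K)]
    rw [e, hid, abs_mul, abs_of_pos (by positivity : (0 : ℝ) < 4 ^ (4 * K)), abs_sub_comm]
    refine (mul_le_mul_of_nonneg_left hTb (by positivity)).trans (le_of_eq ?_)
    rw [show 4 * K + 1 = K + (3 * K + 1) by ring, pow_add (R * x) K, mul_pow R x K]
    ring
  exact le_of_mul_le_mul_left h4 (by positivity)

/-- the first conjugate of `B 0` -/
theorem trc_B0 (m : ℕ) (B : ℕ → ℝ) (W R x : ℝ) (hW : 0 ≤ W) (hR : 1 ≤ R) (hx0 : 0 < x)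
    (hRx : R * x ≤ 1 / 4) (hB : ∀ j, 1 ≤ j → j ≤ m → |B j| ≤ 2 * W * R ^ j)
    (hS : |∑ j ∈ range (m + 1), B j * x ^ j| ≤ 2 * W * (R * x) ^ (m + 1)) :
    |B 0| ≤ 2 * W := by
  have hR0 : 0 < R := lt_of_lt_of_le one_pos hR
  have hRx0 : 0 ≤ R * x := by positivity
  have e : B 0 = ∑ j ∈ range (m + 1), B j * x ^ j - ∑ j ∈ range m, B (j + 1) * x ^ (j + 1) := by
    rw [Finset.sum_range_succ']
    ring
  have h4 : |∑ j ∈ range m, B (j + 1) * x ^ (j + 1)| ≤ 2 * W * (1 / 3) := by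
    calc |∑ j ∈ range m, B (j + 1) * x ^ (j + 1)|
        ≤ ∑ j ∈ range m, |B (j + 1) * x ^ (j + 1)| := Finset.abs_sum_le_sum_abs _ _
      _ ≤ ∑ j ∈ range m, 2 * W * (R * x) ^ (j + 1) := by
          apply Finset.sum_le_sum
          intro j hj
          have hj' := Finset.mem_range.mp hj
          rw [abs_mul, abs_of_pos (by positivity : 0 < x ^ (j + 1)), mul_pow]
          have h5 := mul_le_mul_of_nonneg_right (hB (j + 1) (by omega) (by omega))
            (by positivity : 0 ≤ x ^ (j + 1))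
          linarith
      _ = 2 * W * ∑ j ∈ range m, (R * x) ^ (j + 1) := by rw [Finset.mul_sum]
      _ ≤ _ := mul_le_mul_of_nonneg_left (trc_geom (R * x) hRx0 hRx m) (by positivity)
  have h7 : (R * x) ^ (m + 1) ≤ 1 / 4 := by
    calc (R * x) ^ (m + 1) ≤ (R * x) ^ 1 :=
          pow_le_pow_of_le_one hRx0 (by linarith) (by omega)
      _ ≤ 1 / 4 := by rw [pow_one]; exact hRx
  have h8 := mul_le_mul_of_nonneg_left h7 (by positivity : (0 : ℝ) ≤ 2 * W)
  rw [e]
  have h9 := abs_sub (∑ j ∈ range (m + 1), B j * x ^ j)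
    (∑ j ∈ range m, B (j + 1) * x ^ (j + 1))
  linarith

theorem trc_zero (z : ℤ√2) (i : ℕ) (h : (4 : ℤ√2) ^ i * z = 0) : z = 0 := by
  have h6 : f1 (4 ^ i * z) = 0 := by rw [h, map_zero]
  have h7 : f2 (4 ^ i * z) = 0 := by rw [h, map_zero]
  rw [map_mul, map_pow, trc_f1_4] at h6
  rw [map_mul, map_pow, trc_f2_4] at h7
  have h8 : f1 z = 0 := (mul_eq_zero.mp h6).resolve_left (by positivity)
  have h9 : f2 z = 0 := (mul_eq_zero.mp h7).resolve_left (by positivity)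
  rw [f1_apply] at h8
  rw [f2_apply] at h9
  have hs2 : (√2 : ℝ) ≠ 0 := by positivity
  have h10 : (z.re : ℝ) = 0 := by linarith
  have h11 : (z.im : ℝ) = 0 := by
    have h12 : (z.im : ℝ) * √2 = 0 := by linarith
    exact (mul_eq_zero.mp h12).resolve_right hs2
  have h13 : z.re = 0 := by exact_mod_cast h10
  have h14 : z.im = 0 := by exact_mod_cast h11
  exact Zsqrtd.ext h13 h14

theorem pf_TRC (hLBD : T_LBD) : T_TRC := by
  intro K n₀ Z a V R ρ hK hV hR hρ hρV h1 h2 hs h3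
  have hal := trc_al
  set x : ℝ := (al⁻¹) ^ (2 * n₀) with hx
  have hx0 : 0 < x := by positivity
  obtain ⟨U, hU⟩ : ∃ U : ℝ, U = 4 * 16 ^ (2 * K) * V * R ^ (4 * K + 1) * ρ ^ (4 * K) := ⟨_, rfl⟩
  rw [← hU] at h3
  obtain ⟨hUR, hU1, hUb, hWb, hUe⟩ := trc_U K V R ρ U hV hR hρ hU
  clear hU
  have hV0 : 0 < V := lt_of_lt_of_le one_pos hV
  have hR0 : 0 < R := lt_of_lt_of_le one_pos hR
  have hρ0 : 0 < ρ := lt_of_lt_of_le one_pos hρ
  have hRx : R * x ≤ 1 / 4 := by
    have h4 : U * 1 ≤ U * U := mul_le_mul_of_nonneg_left hU1 (by linarith)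
    have h5 : (12 * R) * x ≤ 3 * U ^ 2 * x := by
      refine mul_le_mul_of_nonneg_right ?_ hx0.le
      rw [sq]
      linarith
    linarith
  have hxK : (al⁻¹) ^ (2 * K * n₀) = x ^ K := by
    rw [hx, ← pow_mul]
    congr 1
    ring
  rw [hxK] at hs
  obtain ⟨W, hW⟩ : ∃ W : ℝ, W = 4 ^ (4 * K) * V * R ^ K := ⟨_, rfl⟩
  have hW0 : 0 < W := by rw [hW]; positivity
  have hSb := trc_S K n₀ Z a V R x hV0 hR hx0 hx hRx h1 hs
  rw [← hW] at hSb
  have hRρ : 1 ≤ R * ρ := one_le_mul_of_one_le_of_one_le hR hρ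
  have hRρK : (R * ρ) ^ K ≤ V * R ^ K := by
    rw [mul_pow, mul_comm V]
    exact mul_le_mul_of_nonneg_left hρV (by positivity)
  have hB1 : ∀ j, 1 ≤ j → j ≤ 3 * K →
      |f1 (trcP K a j + trcQ K n₀ Z a j)| ≤ 2 * W * R ^ j := by
    intro j hj hj3
    rw [map_add]
    refine (abs_add_le _ _).trans ?_
    refine (add_le_add (trc_P1 K a V R h1 j hj3)
      (trc_Q1 K n₀ Z a V R ρ hV0 hR hρ hRρK h2 j hj)).trans (le_of_eq ?_)
    rw [hW, pow_add]
    ring
  have hB01 : |f1 (trcP K a 0 + trcQ K n₀ Z a 0)| ≤ 2 * W :=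
    trc_B0 (3 * K) (fun j => f1 (trcP K a j + trcQ K n₀ Z a j)) W R x hW0.le hR hx0 hRx hB1 hSb
  have hWU : 4 * W ≤ U := by
    rw [hW]
    exact hWb K (by omega)
  have hmain := hLBD (3 * K) (fun j => trcP K a j + trcQ K n₀ Z a j) U x hx0 hU1 h3 ?_ ?_
  · intro k hk1 hk2
    have h4 : trcP K a (k - K) + trcQ K n₀ Z a (k - K) = 0 := hmain (k - K) (by omega)
    have h5 : trcQ K n₀ Z a (k - K) = 0 := by
      unfold trcQ
      rw [if_neg (by omega), if_neg (by omega)]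
    rw [h5, add_zero] at h4
    unfold trcP at h4
    rw [show K + (k - K) = k by omega] at h4
    exact trc_zero _ _ h4
  · intro j hj
    rcases Nat.eq_zero_or_pos j with hj0 | hj0
    · subst hj0
      refine ⟨hB01.trans (by linarith), ?_⟩
      have e : f2 (trcP K a 0 + trcQ K n₀ Z a 0) =
          f1 (trcP K a 0 + trcQ K n₀ Z a 0) + (f2 (trcP K a 0) - f1 (trcP K a 0)) := by
        rw [map_add, map_add, trc_f2Q0]
        ring
      have h6 := trc_P1 K a V R h1 0 (by omega)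
      have h7 := trc_P2 K a R ρ h2 0 (by omega)
      rw [add_zero, ← hW] at h6
      rw [add_zero] at h7
      have h8 : |f2 (trcP K a 0)| ≤ W := by
        refine h7.trans ((mul_le_mul_of_nonneg_left hRρK (by positivity)).trans (le_of_eq ?_))
        rw [hW]
        ring
      change |f2 (trcP K a 0 + trcQ K n₀ Z a 0)| ≤ U
      rw [e]
      refine (abs_add_le _ _).trans ?_
      have h5 := abs_sub (f2 (trcP K a 0)) (f1 (trcP K a 0))
      clear hWb hUb hUe hSb hs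
      linarith
    · refine ⟨?_, ?_⟩
      · refine (hB1 j hj0 hj).trans ?_
        have h4 := hWb (K + j) (by omega)
        have e : 4 ^ (4 * K) * V * R ^ (K + j) = W * R ^ j := by
          rw [hW, pow_add]
          ring
        rw [e] at h4
        have h5 : 0 ≤ W * R ^ j := by positivity
        clear hWb hUb hUe hSb hs
        linarith
      · rw [map_add]
        refine (abs_add_le _ _).trans ?_
        refine le_trans ?_ hUb
        have h7 : (R * ρ) ^ (K + j) ≤ V * R ^ (4 * K) * ρ ^ (4 * K) := by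
          calc (R * ρ) ^ (K + j) ≤ (R * ρ) ^ (4 * K) := pow_le_pow_right₀ hRρ (by omega)
            _ = R ^ (4 * K) * ρ ^ (4 * K) := mul_pow _ _ _
            _ ≤ V * (R ^ (4 * K) * ρ ^ (4 * K)) := le_mul_of_one_le_left (by positivity) hV
            _ = V * R ^ (4 * K) * ρ ^ (4 * K) := by ring
        have h5 := (trc_P2 K a R ρ h2 j hj).trans
          (mul_le_mul_of_nonneg_left h7 (by positivity : (0 : ℝ) ≤ 4 ^ (4 * K)))
        have h6 := (trc_Q2 K n₀ Z a V R hV0 hR h1 j hj0).trans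
          (le_mul_of_one_le_right (by positivity) (one_le_pow₀ hρ : 1 ≤ ρ ^ (4 * K)))
        have h10 : 0 ≤ 4 ^ (4 * K) * V * R ^ (4 * K) * ρ ^ (4 * K) := by positivity
        clear hWb hUb hUe hSb hs hWU hB01 hB1 h3
        linarith
  · refine hSb.trans ?_
    have e : 2 * W * (R * x) ^ (3 * K + 1) =
        2 * (4 ^ (4 * K) * V * R ^ (4 * K + 1)) * x ^ (3 * K + 1) := by
      rw [hW, mul_pow, show 4 * K + 1 = K + (3 * K + 1) by ring, pow_add R K]
      ring
    rw [e]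
    refine mul_le_mul_of_nonneg_right ?_ (by positivity)
    rw [hUe]
    have h4 : 0 ≤ 4 ^ (4 * K) * V * R ^ (4 * K + 1) := by positivity
    refine le_trans ?_ (le_mul_of_one_le_right (by positivity) (one_le_pow₀ hρ))
    clear hWb hUb hUe hSb hs hWU hB01 hB1 h3
    linarith

end Pool.Agent.H89.PL
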