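import Pool.Agent.H23.PL.Targets

/-!
# Row (TRC), part 1: the identity and the bounds
-/

set_option autoImplicit false

open Finset Polynomial Pool.Agent.H23.PL

namespace Pool.Agent.H89.PL

/-- `1 + √2` -/
def trc_e : ℤ√2 := ⟨1, 1⟩

theorem trc_f1_e : f1 trc_e = al := by
  rw [f1_apply]
  unfold trc_e al
  push_cast
  ring

theorem trc_al : 0 < al := by
  unfold al
  positivity

theorem trc_f2_e : f2 trc_e = -al⁻¹ := by
  rw [f2_apply]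
  have h : al * (1 + 1 * (-√2)) = -1 := by
    unfold al
    have := sq2
    nlinarith
  have h1 : (1 + 1 * (-√2) : ℝ) = -al⁻¹ := by
    have h2 := trc_al.ne'
    field_simp
    linarith
  unfold trc_e
  push_cast
  exact h1

theorem trc_f1_star (z : ℤ√2) : f1 (star z) = f2 z := by
  rw [f1_apply, f2_apply, Zsqrtd.re_star, Zsqrtd.im_star]
  push_cast
  ring

theorem trc_f2_star (z : ℤ√2) : f2 (star z) = f1 z := by
  rw [f1_apply, f2_apply, Zsqrtd.re_star, Zsqrtd.im_star]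
  push_cast
  ring

theorem trc_f1_4 : f1 (4 : ℤ√2) = 4 := map_ofNat f1 4

theorem trc_f2_4 : f2 (4 : ℤ√2) = 4 := map_ofNat f2 4

theorem trc_geom (r : ℝ) (hr0 : 0 ≤ r) (hr : r ≤ 1 / 4) (n : ℕ) :
    ∑ j ∈ range n, r ^ (j + 1) ≤ 1 / 3 := by
  have h : ∑ j ∈ range n, r ^ (j + 1) ≤ 1 / 3 - 1 / 3 * (1 / 4) ^ n := by
    induction n with
    | zero => simp
    | succ n ih =>
      rw [Finset.sum_range_succ]
      have h1 : r ^ (n + 1) ≤ (1 / 4 : ℝ) ^ (n + 1) := pow_le_pow_left₀ hr0 hr _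
      have h2 : (1 / 4 : ℝ) ^ (n + 1) = (1 / 4) ^ n * (1 / 4) := pow_succ _ _
      rw [h2] at h1 ⊢
      linarith
  have h3 : (0 : ℝ) ≤ 1 / 3 * (1 / 4) ^ n := by positivity
  linarith

/-- the main part of `B j` -/
def trcP (K : ℕ) (a : ℕ → ℤ√2) (j : ℕ) : ℤ√2 := 4 ^ (3 * K - j) * a (K + j)

/-- the products with powers of the unit -/
def trcc (K n₀ : ℕ) (a : ℕ → ℤ√2) (k : ℕ) : ℤ√2 := a k * trc_e ^ (2 * ((K - k) * n₀))

/-- the part of `B j` which comes from the traces -/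
def trcQ (K n₀ Z : ℕ) (a : ℕ → ℤ√2) (j : ℕ) : ℤ√2 :=
  if j = 0 then (∑ k ∈ range K, 4 ^ (4 * K - k) * (trcc K n₀ a k + star (trcc K n₀ a k))) -
    4 ^ (4 * K) * (Z : ℤ√2) else
  if j ≤ K then -(4 ^ (3 * K + j) * star (a (K - j))) else 0

theorem trc_f1P (K : ℕ) (a : ℕ → ℤ√2) (j : ℕ) :
    f1 (trcP K a j) = 4 ^ (3 * K - j) * f1 (a (K + j)) := by
  unfold trcP
  rw [map_mul, map_pow, trc_f1_4]

theorem trc_f2P (K : ℕ) (a : ℕ → ℤ√2) (j : ℕ) :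
    f2 (trcP K a j) = 4 ^ (3 * K - j) * f2 (a (K + j)) := by
  unfold trcP
  rw [map_mul, map_pow, trc_f2_4]

theorem trc_f1Q (K n₀ Z : ℕ) (a : ℕ → ℤ√2) (j : ℕ) (hj : 1 ≤ j) (hjK : j ≤ K) :
    f1 (trcQ K n₀ Z a j) = -(4 ^ (3 * K + j) * f2 (a (K - j))) := by
  unfold trcQ
  rw [if_neg (by omega), if_pos hjK, map_neg, map_mul, map_pow, trc_f1_star, trc_f1_4]

theorem trc_f2Q (K n₀ Z : ℕ) (a : ℕ → ℤ√2) (j : ℕ) (hj : 1 ≤ j) (hjK : j ≤ K) :
    f2 (trcQ K n₀ Z a j) = -(4 ^ (3 * K + j) * f1 (a (K - j))) := by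
  unfold trcQ
  rw [if_neg (by omega), if_pos hjK, map_neg, map_mul, map_pow, trc_f2_star, trc_f2_4]

theorem trc_f1Q0 (K n₀ Z : ℕ) (a : ℕ → ℤ√2) : f1 (trcQ K n₀ Z a 0) =
    (∑ k ∈ range K, 4 ^ (4 * K - k) * (f1 (trcc K n₀ a k) + f2 (trcc K n₀ a k))) -
      4 ^ (4 * K) * (Z : ℝ) := by
  unfold trcQ
  rw [if_pos rfl, map_sub, map_sum, map_mul, map_pow, map_natCast, trc_f1_4]
  congr 1
  apply Finset.sum_congr rfl
  intro k _
  rw [map_mul, map_pow, map_add, trc_f1_star, trc_f1_4]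

theorem trc_f2Q0 (K n₀ Z : ℕ) (a : ℕ → ℤ√2) : f2 (trcQ K n₀ Z a 0) = f1 (trcQ K n₀ Z a 0) := by
  rw [trc_f1Q0]
  unfold trcQ
  rw [if_pos rfl, map_sub, map_sum, map_mul, map_pow, map_natCast, trc_f2_4]
  congr 1
  apply Finset.sum_congr rfl
  intro k _
  rw [map_mul, map_pow, map_add, trc_f2_star, trc_f2_4, add_comm]

theorem trc_c1 (K n₀ : ℕ) (a : ℕ → ℤ√2) (k : ℕ) (hk : k ≤ K) :
    f1 (trcc K n₀ a k) * ((al⁻¹) ^ (2 * n₀)) ^ K = f1 (a k) * ((al⁻¹) ^ (2 * n₀)) ^ k := by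
  unfold trcc
  rw [map_mul, map_pow, trc_f1_e]
  have hal := trc_al.ne'
  obtain ⟨d, rfl⟩ := Nat.exists_eq_add_of_le hk
  rw [Nat.add_sub_cancel_left, pow_add]
  have h : al ^ (2 * (d * n₀)) * ((al⁻¹) ^ (2 * n₀)) ^ d = 1 := by
    rw [← pow_mul, show 2 * n₀ * d = 2 * (d * n₀) by ring, ← mul_pow, mul_inv_cancel₀ hal, one_pow]
  calc f1 (a k) * al ^ (2 * (d * n₀)) * (((al⁻¹) ^ (2 * n₀)) ^ k * ((al⁻¹) ^ (2 * n₀)) ^ d)
      = f1 (a k) * ((al⁻¹) ^ (2 * n₀)) ^ k *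
        (al ^ (2 * (d * n₀)) * ((al⁻¹) ^ (2 * n₀)) ^ d) := by ring
    _ = f1 (a k) * ((al⁻¹) ^ (2 * n₀)) ^ k := by rw [h, mul_one]

theorem trc_c2 (K n₀ : ℕ) (a : ℕ → ℤ√2) (k : ℕ) (hk : k ≤ K) :
    f2 (trcc K n₀ a k) * ((al⁻¹) ^ (2 * n₀)) ^ K =
      f2 (a k) * ((al⁻¹) ^ (2 * n₀)) ^ (2 * K - k) := by
  unfold trcc
  rw [map_mul, map_pow, trc_f2_e]
  obtain ⟨d, rfl⟩ := Nat.exists_eq_add_of_le hk
  rw [Nat.add_sub_cancel_left, show 2 * (k + d) - k = d + (k + d) by omega, pow_add _ d (k + d)]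
  have h : (-al⁻¹) ^ (2 * (d * n₀)) = ((al⁻¹) ^ (2 * n₀)) ^ d := by
    rw [pow_mul, neg_sq, ← pow_mul, ← pow_mul]
    congr 1
    ring
  rw [h]
  ring

theorem trc_ident (K n₀ Z : ℕ) (a : ℕ → ℤ√2) (x : ℝ) (hx : x = (al⁻¹) ^ (2 * n₀)) :
    x ^ K * ∑ j ∈ range (3 * K + 1), f1 (trcP K a j + trcQ K n₀ Z a j) * x ^ j =
      4 ^ (4 * K) * (∑ k ∈ range (K + (3 * K + 1)), f1 (a k) / 4 ^ k * x ^ k - Z * x ^ K) := by
  have h0 : ∀ j, f1 (trcP K a j + trcQ K n₀ Z a j) * x ^ j =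
      f1 (trcP K a j) * x ^ j + f1 (trcQ K n₀ Z a j) * x ^ j := by
    intro j
    rw [map_add, add_mul]
  rw [Finset.sum_congr rfl fun j _ => h0 j, Finset.sum_add_distrib, mul_add,
    Finset.sum_range_add (fun k => f1 (a k) / 4 ^ k * x ^ k) K (3 * K + 1), mul_sub, mul_add]
  have hP : x ^ K * ∑ j ∈ range (3 * K + 1), f1 (trcP K a j) * x ^ j =
      4 ^ (4 * K) * ∑ j ∈ range (3 * K + 1), f1 (a (K + j)) / 4 ^ (K + j) * x ^ (K + j) := by
    rw [Finset.mul_sum, Finset.mul_sum]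
    apply Finset.sum_congr rfl
    intro j hj
    have hj' : j ≤ 3 * K := by
      have := Finset.mem_range.mp hj
      omega
    rw [trc_f1P]
    have h4 : (4 : ℝ) ^ (4 * K) = 4 ^ (3 * K - j) * 4 ^ (K + j) := by
      rw [← pow_add]
      congr 1
      omega
    rw [h4, pow_add x K j]
    have h5 : (4 : ℝ) ^ (K + j) ≠ 0 := by positivity
    field_simp
  have hQ : x ^ K * ∑ j ∈ range (3 * K + 1), f1 (trcQ K n₀ Z a j) * x ^ j =
      4 ^ (4 * K) * (∑ k ∈ range K, f1 (a k) / 4 ^ k * x ^ k) - 4 ^ (4 * K) * (Z * x ^ K) := by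
    rw [Finset.sum_range_succ', mul_add]
    have e1 : ∑ j ∈ range (3 * K), f1 (trcQ K n₀ Z a (j + 1)) * x ^ (j + 1) =
        ∑ j ∈ range K, f1 (trcQ K n₀ Z a (j + 1)) * x ^ (j + 1) := by
      symm
      apply Finset.sum_subset
      · intro j hj
        rw [Finset.mem_range] at hj ⊢
        omega
      · intro j _ hj
        rw [Finset.mem_range] at hj
        unfold trcQ
        rw [if_neg (by omega), if_neg (by omega), map_zero, zero_mul]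
    have e2 : x ^ K * ∑ j ∈ range K, f1 (trcQ K n₀ Z a (j + 1)) * x ^ (j + 1) =
        ∑ k ∈ range K, -(4 ^ (4 * K - k) * f2 (a k) * x ^ (2 * K - k)) := by
      refine Eq.trans ?_ (Finset.sum_range_reflect
        (fun k => -((4 : ℝ) ^ (4 * K - k) * f2 (a k) * x ^ (2 * K - k))) K)
      rw [Finset.mul_sum]
      apply Finset.sum_congr rfl
      intro j hj
      have hj' := Finset.mem_range.mp hj
      rw [trc_f1Q K n₀ Z a (j + 1) (by omega) (by omega),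
        show K - (j + 1) = K - 1 - j by omega,
        show 4 * K - (K - 1 - j) = 3 * K + (j + 1) by omega,
        show 2 * K - (K - 1 - j) = K + (j + 1) by omega, pow_add x K (j + 1)]
      ring
    have e3 : x ^ K * (f1 (trcQ K n₀ Z a 0) * x ^ 0) =
        ∑ k ∈ range K, (4 ^ (4 * K - k) * (f1 (a k) * x ^ k) +
          4 ^ (4 * K - k) * f2 (a k) * x ^ (2 * K - k)) - 4 ^ (4 * K) * (Z * x ^ K) := by
      rw [trc_f1Q0, pow_zero, mul_one, mul_sub, Finset.mul_sum]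
      congr 1
      · apply Finset.sum_congr rfl
        intro k hk
        have hk' : k ≤ K := (Finset.mem_range.mp hk).le
        have c1 := trc_c1 K n₀ a k hk'
        have c2 := trc_c2 K n₀ a k hk'
        rw [← hx] at c1 c2
        rw [← c1]
        have e4 : (4 : ℝ) ^ (4 * K - k) * f2 (a k) * x ^ (2 * K - k) =
            4 ^ (4 * K - k) * (f2 (a k) * x ^ (2 * K - k)) := by ring
        rw [e4, ← c2]
        ring
      · ring
    rw [e1, e2, e3, Finset.sum_add_distrib, Finset.sum_neg_distrib, Finset.mul_sum]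
    have e5 : ∑ k ∈ range K, (4 : ℝ) ^ (4 * K - k) * (f1 (a k) * x ^ k) =
        ∑ k ∈ range K, 4 ^ (4 * K) * (f1 (a k) / 4 ^ k * x ^ k) := by
      apply Finset.sum_congr rfl
      intro k hk
      have hk' : k < K := Finset.mem_range.mp hk
      have h4 : (4 : ℝ) ^ (4 * K) = 4 ^ (4 * K - k) * 4 ^ k := by
        rw [← pow_add]
        congr 1
        omega
      rw [h4]
      have h5 : (4 : ℝ) ^ k ≠ 0 := by positivity
      field_simp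
    rw [e5]
    ring
  rw [hP, hQ]
  ring

/-! ### The bounds -/

theorem trc_P1 (K : ℕ) (a : ℕ → ℤ√2) (V R : ℝ) (h1 : ∀ k, |f1 (a k)| ≤ V * (4 * R) ^ k) (j : ℕ)
    (hj : j ≤ 3 * K) : |f1 (trcP K a j)| ≤ 4 ^ (4 * K) * V * R ^ (K + j) := by
  rw [trc_f1P, abs_mul, abs_of_pos (by positivity : (0 : ℝ) < 4 ^ (3 * K - j))]
  refine (mul_le_mul_of_nonneg_left (h1 (K + j)) (by positivity)).trans (le_of_eq ?_)
  have h4 : (4 : ℝ) ^ (4 * K) = 4 ^ (3 * K - j) * 4 ^ (K + j) := by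
    rw [← pow_add]
    congr 1
    omega
  rw [h4, mul_pow]
  ring

theorem trc_P2 (K : ℕ) (a : ℕ → ℤ√2) (R ρ : ℝ) (h2 : ∀ k, |f2 (a k)| ≤ (4 * R * ρ) ^ k) (j : ℕ)
    (hj : j ≤ 3 * K) : |f2 (trcP K a j)| ≤ 4 ^ (4 * K) * (R * ρ) ^ (K + j) := by
  rw [trc_f2P, abs_mul, abs_of_pos (by positivity : (0 : ℝ) < 4 ^ (3 * K - j))]
  refine (mul_le_mul_of_nonneg_left (h2 (K + j)) (by positivity)).trans (le_of_eq ?_)
  have h4 : (4 : ℝ) ^ (4 * K) = 4 ^ (3 * K - j) * 4 ^ (K + j) := by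
    rw [← pow_add]
    congr 1
    omega
  rw [h4, show 4 * R * ρ = 4 * (R * ρ) by ring, mul_pow 4 (R * ρ)]
  ring

theorem trc_Q1 (K n₀ Z : ℕ) (a : ℕ → ℤ√2) (V R ρ : ℝ) (hV : 0 < V) (hR : 1 ≤ R) (hρ : 1 ≤ ρ)
    (hRρK : (R * ρ) ^ K ≤ V * R ^ K) (h2 : ∀ k, |f2 (a k)| ≤ (4 * R * ρ) ^ k) (j : ℕ)
    (hj : 1 ≤ j) : |f1 (trcQ K n₀ Z a j)| ≤ 4 ^ (4 * K) * V * R ^ (K + j) := by
  have hR0 : 0 < R := lt_of_lt_of_le one_pos hR
  have hRρ : 1 ≤ R * ρ := one_le_mul_of_one_le_of_one_le hR hρ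
  rcases Nat.lt_or_ge K j with hjK | hjK
  · unfold trcQ
    rw [if_neg (by omega), if_neg (by omega), map_zero, abs_zero]
    positivity
  · rw [trc_f1Q K n₀ Z a j hj hjK, abs_neg, abs_mul,
      abs_of_pos (by positivity : (0 : ℝ) < 4 ^ (3 * K + j))]
    refine (mul_le_mul_of_nonneg_left (h2 (K - j)) (by positivity)).trans ?_
    have h4 : (4 : ℝ) ^ (4 * K) = 4 ^ (3 * K + j) * 4 ^ (K - j) := by
      rw [← pow_add]
      congr 1
      omega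
    rw [h4, show 4 * R * ρ = 4 * (R * ρ) by ring, mul_pow 4 (R * ρ)]
    have h5 : (R * ρ) ^ (K - j) ≤ V * R ^ (K + j) := by
      calc (R * ρ) ^ (K - j) ≤ (R * ρ) ^ K := pow_le_pow_right₀ hRρ (by omega)
        _ ≤ V * R ^ K := hRρK
        _ ≤ V * R ^ (K + j) :=
            mul_le_mul_of_nonneg_left (pow_le_pow_right₀ hR (by omega)) hV.le
    have h6 := mul_le_mul_of_nonneg_left h5
      (by positivity : (0 : ℝ) ≤ 4 ^ (3 * K + j) * 4 ^ (K - j))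
    linarith

theorem trc_Q2 (K n₀ Z : ℕ) (a : ℕ → ℤ√2) (V R : ℝ) (hV : 0 < V) (hR : 1 ≤ R)
    (h1 : ∀ k, |f1 (a k)| ≤ V * (4 * R) ^ k) (j : ℕ) (hj : 1 ≤ j) :
    |f2 (trcQ K n₀ Z a j)| ≤ 4 ^ (4 * K) * V * R ^ (4 * K) := by
  have hR0 : 0 < R := lt_of_lt_of_le one_pos hR
  rcases Nat.lt_or_ge K j with hjK | hjK
  · unfold trcQ
    rw [if_neg (by omega), if_neg (by omega), map_zero, abs_zero]
    positivity
  · rw [trc_f2Q K n₀ Z a j hj hjK, abs_neg, abs_mul,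
      abs_of_pos (by positivity : (0 : ℝ) < 4 ^ (3 * K + j))]
    refine (mul_le_mul_of_nonneg_left (h1 (K - j)) (by positivity)).trans ?_
    have h4 : (4 : ℝ) ^ (4 * K) = 4 ^ (3 * K + j) * 4 ^ (K - j) := by
      rw [← pow_add]
      congr 1
      omega
    rw [h4, mul_pow]
    have h5 : R ^ (K - j) ≤ R ^ (4 * K) := pow_le_pow_right₀ hR (by omega)
    have h6 := mul_le_mul_of_nonneg_left h5
      (by positivity : (0 : ℝ) ≤ 4 ^ (3 * K + j) * 4 ^ (K - j) * V)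
    linarith

/-- the size of the constant -/
theorem trc_U (K : ℕ) (V R ρ U : ℝ) (hV : 1 ≤ V) (hR : 1 ≤ R) (hρ : 1 ≤ ρ)
    (hU : U = 4 * 16 ^ (2 * K) * V * R ^ (4 * K + 1) * ρ ^ (4 * K)) :
    4 * R ≤ U ∧ 1 ≤ U ∧ 4 * (4 ^ (4 * K) * V * R ^ (4 * K) * ρ ^ (4 * K)) ≤ U ∧
    (∀ i, i ≤ 4 * K → 4 * (4 ^ (4 * K) * V * R ^ i) ≤ U) ∧
    U = 4 * (4 ^ (4 * K) * V * R ^ (4 * K + 1)) * ρ ^ (4 * K) := by
  have hW4 : (16 : ℝ) ^ (2 * K) = 4 ^ (4 * K) := by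
    rw [show (16 : ℝ) = 4 ^ 2 by norm_num, ← pow_mul]
    congr 1
    ring
  have hV0 : 0 < V := lt_of_lt_of_le one_pos hV
  have hR0 : 0 < R := lt_of_lt_of_le one_pos hR
  have hρ0 : 0 < ρ := lt_of_lt_of_le one_pos hρ
  have h41 : (1 : ℝ) ≤ 4 ^ (4 * K) := one_le_pow₀ (by norm_num)
  have hρ1 : 1 ≤ ρ ^ (4 * K) := one_le_pow₀ hρ
  have hR1 : 1 ≤ R ^ (4 * K) := one_le_pow₀ hR
  have e : U = 4 * R * (4 ^ (4 * K) * V * R ^ (4 * K) * ρ ^ (4 * K)) := by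
    rw [hU, hW4, pow_succ]
    ring
  have hUR : 4 * R ≤ U := by
    rw [e]
    exact le_mul_of_one_le_right (by positivity)
      (one_le_mul_of_one_le_of_one_le (one_le_mul_of_one_le_of_one_le
        (one_le_mul_of_one_le_of_one_le h41 hV) hR1) hρ1)
  have hUb : 4 * (4 ^ (4 * K) * V * R ^ (4 * K) * ρ ^ (4 * K)) ≤ U := by
    have e' : U = 4 * (4 ^ (4 * K) * V * R ^ (4 * K) * ρ ^ (4 * K)) * R := by
      rw [e]
      ring
    rw [e']
    exact le_mul_of_one_le_right (by positivity) hR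
  refine ⟨hUR, by linarith, hUb, fun i hi => le_trans ?_ hUb, by rw [hU, hW4]; ring⟩
  have h6 : R ^ i ≤ R ^ (4 * K) * ρ ^ (4 * K) :=
    (pow_le_pow_right₀ hR hi).trans (le_mul_of_one_le_right (by positivity) hρ1)
  have h7 := mul_le_mul_of_nonneg_left h6 (by positivity : (0 : ℝ) ≤ 4 * (4 ^ (4 * K) * V))
  linarith

/-- the tail of the series -/
theorem trc_tail (K Z : ℕ) (a : ℕ → ℤ√2) (V R x : ℝ) (hV : 0 < V) (hR : 1 ≤ R) (hx0 : 0 < x)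
    (hRx : R * x ≤ 1 / 4) (h1 : ∀ k, |f1 (a k)| ≤ V * (4 * R) ^ k)
    (hs : HasSum (fun k => f1 (a k) / 4 ^ k * x ^ k) (Z * x ^ K)) :
    |Z * x ^ K - ∑ k ∈ range (K + (3 * K + 1)), f1 (a k) / 4 ^ k * x ^ k| ≤
      2 * V * (R * x) ^ (4 * K + 1) := by
  have hR0 : 0 < R := lt_of_lt_of_le one_pos hR
  have hRx0 : 0 ≤ R * x := by positivity
  have ht : ∀ k, |f1 (a k) / 4 ^ k * x ^ k| ≤ V * (R * x) ^ k := by
    intro k
    rw [abs_mul, abs_div, abs_of_pos (by positivity : (0 : ℝ) < 4 ^ k),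
      abs_of_pos (by positivity : 0 < x ^ k)]
    have h4 : |f1 (a k)| / 4 ^ k ≤ V * R ^ k := by
      rw [div_le_iff₀ (by positivity)]
      refine (h1 k).trans (le_of_eq ?_)
      rw [mul_pow]
      ring
    calc |f1 (a k)| / 4 ^ k * x ^ k ≤ V * R ^ k * x ^ k :=
          mul_le_mul_of_nonneg_right h4 (by positivity)
      _ = V * (R * x) ^ k := by rw [mul_pow]; ring
  have hTs := (hasSum_nat_add_iff' (K + (3 * K + 1))).mpr hs
  have hg : HasSum (fun j : ℕ => V * (R * x) ^ (4 * K + 1) * (R * x) ^ j)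
      (V * (R * x) ^ (4 * K + 1) * (1 - R * x)⁻¹) :=
    (hasSum_geometric_of_lt_one hRx0 (by linarith)).mul_left _
  have h4 := hTs.norm_le_of_bounded hg (fun j => by
    rw [Real.norm_eq_abs]
    refine (ht _).trans (le_of_eq ?_)
    rw [show j + (K + (3 * K + 1)) = (4 * K + 1) + j by ring, pow_add]
    ring)
  rw [Real.norm_eq_abs] at h4
  refine h4.trans ?_
  have h5 : (1 - R * x)⁻¹ ≤ 2 := by
    rw [inv_le_comm₀ (by linarith) (by norm_num)]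
    linarith
  have h6 : 0 ≤ V * (R * x) ^ (4 * K + 1) := by positivity
  have h7 := mul_le_mul_of_nonneg_left h5 h6
  linarith

end Pool.Agent.H89.PL
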